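import Pool.Agent.Helper25.NAQ1

/-!
MP_5ffaeb_an, Q1: the Bishop-Phelps-Bollobas property of a pair `(X, Y)` does not pass to
one-complemented subspaces of the domain. The counterexample has a three-dimensional domain `X`
for which `(X, Y)` has the property for EVERY Banach space `Y`, and it works over both scalar
fields.
-/

set_option autoImplicit false

open Pool.Agent.Helper25.NA

universe u

namespace Pool.Agent.Results.MP_5ffaeb_an.Q1BPBpDisproof

/-- Negative answer to Q1, over `ℝ` and over `ℂ`. There are a three-dimensional Banach space `X`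
and a one-complemented subspace `X₁` of `X` such that `(X, Y)` has the BPBp for every Banach
space `Y`, but `(X₁, Y)` fails the BPBp for some Banach space `Y`. -/
theorem result (𝕜 : Type) [RCLike 𝕜] :
    ∃ (X : Type) (_ : NormedAddCommGroup X) (_ : NormedSpace 𝕜 X) (X₁ : Submodule 𝕜 X),
      CompleteSpace X ∧ Module.finrank 𝕜 X = 3 ∧ OneComplemented X₁ ∧
      (∀ (Y : Type u) [NormedAddCommGroup Y] [NormedSpace 𝕜 Y] [CompleteSpace Y],
        HasBPBp 𝕜 X Y) ∧
      (∃ (Y : Type) (_ : NormedAddCommGroup Y) (_ : NormedSpace 𝕜 Y),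
        CompleteSpace Y ∧ HasBPBp 𝕜 X Y ∧ ¬ HasBPBp 𝕜 X₁ Y) :=
  ⟨X3 𝕜, inferInstance, inferInstance, X31 𝕜, inferInstance, finrank_X3, X31_oneComplemented,
    fun Y _ _ _ => X3_bpbp Y,
    ⟨Y0 𝕜, inferInstance, inferInstance, inferInstance, X3_bpbp (Y0 𝕜), X31_fail⟩⟩

end Pool.Agent.Results.MP_5ffaeb_an.Q1BPBpDisproof
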