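import Pool.Agent.Helper25.NAQ2

/-!
MP_5ffaeb_an, Q2: density of the norm attaining operators in `L(X, Y)` does not pass to
one-complemented subspaces of the domain. The counterexample has a domain `X` with Lindenstrauss'
property A (norm attaining operators are dense in `L(X, Y)` for EVERY `Y`), and it works over both
scalar fields.
-/

set_option autoImplicit false

open Pool.Agent.Helper25.NA

universe u

namespace Pool.Agent.Results.MP_5ffaeb_an.Q2NADisproof

/-- The subspace of the counterexample is a copy of `c₀`, so it is not zero. -/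
theorem XA1_ne_bot (𝕜 : Type) [RCLike 𝕜] : XA1 𝕜 (ZeroAtInftyContinuousMap ℕ 𝕜) ≠ ⊥ :=
  have : Nontrivial (XA1 𝕜 (ZeroAtInftyContinuousMap ℕ 𝕜)) :=
    (inA (𝕜 := 𝕜) (Z := ZeroAtInftyContinuousMap ℕ 𝕜)).symm.toEquiv.nontrivial
  Submodule.nontrivial_iff_ne_bot.1 this

/-- Negative answer to Q2, over `ℝ` and over `ℂ`. There are a Banach space `X` and a nonzero
one-complemented subspace `X₁` of `X` such that `NA(X, Y)` is dense in `L(X, Y)` for every Banach
space `Y`, but `NA(X₁, Y)` is not dense in `L(X₁, Y)` for some Banach space `Y`. (The zero subspace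
has to be excluded, because its unit sphere is empty.) -/
theorem result (𝕜 : Type) [RCLike 𝕜] :
    ∃ (X : Type) (_ : NormedAddCommGroup X) (_ : NormedSpace 𝕜 X) (X₁ : Submodule 𝕜 X),
      CompleteSpace X ∧ OneComplemented X₁ ∧ X₁ ≠ ⊥ ∧
      (∀ (Y : Type u) [NormedAddCommGroup Y] [NormedSpace 𝕜 Y] [CompleteSpace Y],
        NADense 𝕜 X Y) ∧
      (∃ (Y : Type) (_ : NormedAddCommGroup Y) (_ : NormedSpace 𝕜 Y),
        CompleteSpace Y ∧ NADense 𝕜 X Y ∧ ¬ NADense 𝕜 X₁ Y) :=
  ⟨XA 𝕜 (ZeroAtInftyContinuousMap ℕ 𝕜), inferInstance, inferInstance,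
    XA1 𝕜 (ZeroAtInftyContinuousMap ℕ 𝕜), inferInstance, XA1_oneComplemented,
    XA1_ne_bot 𝕜, fun Y _ _ _ => XA_dense Y,
    ⟨Y0 𝕜, inferInstance, inferInstance, inferInstance, XA_dense (Y0 𝕜),
      not_dense_of_iso 𝕜 _ inA⟩⟩

end Pool.Agent.Results.MP_5ffaeb_an.Q2NADisproof
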